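import Pool.Agent.J4H45.GS.Ms1

/-!
Job MS of project GS, second part: the limit at the Lebesgue points, and Fatou's lemma.
-/

set_option autoImplicit false

open Filter Topology MeasureTheory Set
open scoped ENNReal FourierTransform

namespace Pool.Agent.J4H45.GS

noncomputable section

variable {g : ℝ → ℂ} {G : ℂ → ℂ} {σ c b A C : ℝ} {m : ℕ} (H : Dat g G σ c b A C m)

/-- convergence on compact sets and domination -/
lemma tail_lim {F : ℕ → ℝ → ℝ} {h : ℝ → ℝ} (hh : Integrable h) (h0 : ∀ n y, 0 ≤ F n y) (hF : ∀ n y, F n y ≤ h y)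
    (hm : ∀ n, AEStronglyMeasurable (F n)) (hR : ∀ R : ℕ, Tendsto (fun n => ∫ y in (-(R : ℝ))..R, F n y) atTop (𝓝 0)) :
    Tendsto (fun n => ∫ y, F n y) atTop (𝓝 0) := by
  have hFi : ∀ n, Integrable (F n) := fun n => hh.mono' (hm n) (Eventually.of_forall fun y => by
    rw [Real.norm_eq_abs, abs_of_nonneg (h0 n y)]
    exact hF n y)
  rw [Metric.tendsto_atTop]
  intro ε hε
  have h1 : Tendsto (fun R : ℕ => ∫ y in (-(R : ℝ))..R, h y) atTop (𝓝 (∫ y, h y)) :=
    intervalIntegral_tendsto_integral hh (tendsto_neg_atTop_atBot.comp tendsto_natCast_atTop_atTop)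
      tendsto_natCast_atTop_atTop
  obtain ⟨R, hR1⟩ := (h1.eventually (lt_mem_nhds (show (∫ y, h y) - ε / 2 < ∫ y, h y by linarith))).exists
  obtain ⟨n₀, hn₀⟩ := Metric.tendsto_atTop.1 (hR R) (ε / 2) (by positivity)
  refine ⟨n₀, fun n hn => ?_⟩
  have h2 := hn₀ n hn
  rw [Real.dist_eq, sub_zero] at h2 ⊢
  have hRR : (-(R : ℝ)) ≤ R := by
    have : (0 : ℝ) ≤ R := Nat.cast_nonneg _
    linarith
  rw [abs_of_nonneg (integral_nonneg (h0 n))]
  have h3 : ∫ y, F n y = (∫ y in (-(R : ℝ))..R, F n y) + ∫ y in (Ioc (-(R : ℝ)) R)ᶜ, F n y := by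
    rw [intervalIntegral.integral_of_le hRR]
    exact (integral_add_compl measurableSet_Ioc (hFi n)).symm
  have h4 : ∫ y, h y = (∫ y in (-(R : ℝ))..R, h y) + ∫ y in (Ioc (-(R : ℝ)) R)ᶜ, h y := by
    rw [intervalIntegral.integral_of_le hRR]
    exact (integral_add_compl measurableSet_Ioc hh).symm
  have h5 : ∫ y in (Ioc (-(R : ℝ)) R)ᶜ, F n y ≤ ∫ y in (Ioc (-(R : ℝ)) R)ᶜ, h y :=
    integral_mono (hFi n).integrableOn hh.integrableOn (fun y => hF n y)
  have h6 := (abs_lt.1 h2).2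
  linarith

include H in
lemma g_le (u : ℝ) : ‖g u‖ ≤ A * Real.exp (|b| * |u|) := by
  have hA := A_nonneg H
  rcases lt_or_ge u 0 with h | h
  · rw [H.neg u h, norm_zero]
    positivity
  · refine (H.bd u h).trans (mul_le_mul_of_nonneg_left ?_ hA)
    apply Real.exp_le_exp.2
    rw [← abs_mul]
    exact le_abs_self _

include H in
lemma g_loc : LocallyIntegrable g := by
  have h1 : LocallyIntegrable (fun u : ℝ => A * Real.exp (|b| * |u|)) := by
    apply Continuous.locallyIntegrable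
    fun_prop
  refine h1.mono H.meas.aestronglyMeasurable (Eventually.of_forall fun u => ?_)
  refine (g_le H u).trans (le_abs_self _)

/-- Lebesgue points -/
def LP (g : ℝ → ℂ) (v : ℝ) : Prop := ∀ R : ℕ, 1 ≤ R →
  Tendsto (fun n : ℕ => ⨍ y in Metric.closedBall v ((R : ℝ) / ((n : ℝ) + 1)), ‖g y - g v‖) atTop (𝓝 0)

include H in
lemma lp_ae : ∀ᵐ v : ℝ, LP g v := by
  have h := IsUnifLocDoublingMeasure.ae_tendsto_average_norm_sub (μ := (volume : Measure ℝ)) (g_loc H) 1
  filter_upwards [h] with v hv R hR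
  have hR0 : (0 : ℝ) < R := by exact_mod_cast hR
  refine hv (fun _ => v) (fun n : ℕ => (R : ℝ) / ((n : ℝ) + 1)) ?_ ?_
  · refine tendsto_nhdsWithin_iff.2 ⟨?_, Eventually.of_forall fun n => ?_⟩
    · exact tendsto_const_nhds.div_atTop (tendsto_atTop_add_const_right _ _ tendsto_natCast_atTop_atTop)
    · show 0 < (R : ℝ) / ((n : ℝ) + 1)
      positivity
  · refine Eventually.of_forall fun n => ?_
    apply Metric.mem_closedBall_self
    positivity

/-- the sequence of scales -/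
def en (n : ℕ) : ℝ := 1 / (4 * ((n : ℝ) + 1) ^ 2)

lemma en_pos (n : ℕ) : 0 < en n := by unfold en; positivity

lemma phi_eq (g : ℝ → ℂ) (n : ℕ) (v : ℝ) :
    ((1 / (2 * Real.pi) * Real.sqrt (Real.pi / en n) : ℝ) : ℂ) * phi g (en n) v =
      ((1 / Real.sqrt Real.pi : ℝ) : ℂ) * ∫ y : ℝ, g (v - y / ((n : ℝ) + 1)) * ((Real.exp (-y ^ 2) : ℝ) : ℂ) := by
  have hN : (0 : ℝ) < (n : ℝ) + 1 := by positivity
  have h1 : phi g (en n) v = ∫ x : ℝ, g (v - x) * ((Real.exp (-(((n : ℝ) + 1) * x) ^ 2) : ℝ) : ℂ) := by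
    unfold phi
    rw [← integral_sub_left_eq_self (fun u => g u * ((Real.exp (-(v - u) ^ 2 / (4 * en n)) : ℝ) : ℂ)) volume v]
    apply integral_congr_ae
    refine Eventually.of_forall fun x => ?_
    simp only
    congr 3
    unfold en
    field_simp
    ring
  have h2 : ∫ y : ℝ, g (v - y / ((n : ℝ) + 1)) * ((Real.exp (-y ^ 2) : ℝ) : ℂ) =
      (((n : ℝ) + 1 : ℝ) : ℂ) * ∫ x : ℝ, g (v - x) * ((Real.exp (-(((n : ℝ) + 1) * x) ^ 2) : ℝ) : ℂ) := by
    have h3 := Measure.integral_comp_div (fun x : ℝ => g (v - x) * ((Real.exp (-(((n : ℝ) + 1) * x) ^ 2) : ℝ) : ℂ)) ((n : ℝ) + 1)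
    rw [abs_of_pos hN, Complex.real_smul] at h3
    rw [← h3]
    apply integral_congr_ae
    refine Eventually.of_forall fun y => ?_
    simp only
    congr 4
    field_simp
  rw [h2, ← h1]
  have h4 : Real.sqrt (Real.pi / en n) = 2 * ((n : ℝ) + 1) * Real.sqrt Real.pi := by
    have e : Real.pi / en n = (2 * ((n : ℝ) + 1)) ^ 2 * Real.pi := by
      unfold en
      field_simp
      ring
    rw [e, Real.sqrt_mul (by positivity), Real.sqrt_sq (by positivity)]
  have h5 : Real.sqrt Real.pi ≠ 0 := (Real.sqrt_pos.2 Real.pi_pos).ne'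
  have h6 : Real.sqrt Real.pi ^ 2 = Real.pi := Real.sq_sqrt Real.pi_pos.le
  have h7 := Real.pi_pos.ne'
  have h8 : 1 / (2 * Real.pi) * Real.sqrt (Real.pi / en n) = 1 / Real.sqrt Real.pi * ((n : ℝ) + 1) := by
    rw [h4]
    obtain ⟨r, hr⟩ : ∃ r, r = Real.sqrt Real.pi := ⟨_, rfl⟩
    rw [← hr] at h5 h6 ⊢
    rw [← h6]
    field_simp
  rw [h8, Complex.ofReal_mul, mul_assoc]

/-- the averages over an interval -/
lemma avg_int (φ : ℝ → ℝ) (v : ℝ) {r N : ℝ} (hr : 0 < r) (hN : 0 < N) :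
    ∫ y in (-r)..r, φ (v - y / N) = 2 * r * ⨍ y in Metric.closedBall v (r / N), φ y := by
  have h1 : 0 < r / N := by positivity
  rw [intervalIntegral.integral_comp_sub_div _ hN.ne', setAverage_eq, Real.closedBall_eq_Icc, smul_eq_mul, smul_eq_mul,
    intervalIntegral.integral_of_le (by rw [neg_div]; linarith), integral_Icc_eq_integral_Ioc]
  have h2 : (volume : Measure ℝ).real (Icc (v - r / N) (v + r / N)) = 2 * (r / N) := by
    rw [Real.volume_real_Icc_of_le (by linarith)]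
    ring
  rw [h2, neg_div, sub_neg_eq_add]
  field_simp

include H in
theorem phi_tendsto {v : ℝ} (hv : LP g v) :
    Tendsto (fun n : ℕ => ((1 / (2 * Real.pi) * Real.sqrt (Real.pi / en n) : ℝ) : ℂ) * phi g (en n) v) atTop (𝓝 (g v)) := by
  have hA := A_nonneg H
  have hm := H.meas
  simp_rw [phi_eq]
  have h3 : ∫ y : ℝ, Real.exp (-y ^ 2) = Real.sqrt Real.pi := by
    have := integral_gaussian 1
    simpa using this
  have hgi : Integrable (fun y : ℝ => Real.exp (-y ^ 2)) := by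
    have := integrable_exp_neg_mul_sq (b := 1) one_pos
    simpa using this
  -- the dominating function
  set K : ℝ := 2 * A * Real.exp (|b| * |v| + b ^ 2) with hK
  have hdom : ∀ (n : ℕ) (y : ℝ), ‖g (v - y / ((n : ℝ) + 1)) - g v‖ * Real.exp (-y ^ 2) ≤
      K * Real.exp (-(1 / 2) * y ^ 2) := by
    intro n y
    have hq : |v - y / ((n : ℝ) + 1)| ≤ |v| + |y| := by
      refine (abs_sub _ _).trans (add_le_add le_rfl ?_)
      rw [abs_div]
      apply div_le_self (abs_nonneg _)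
      rw [abs_of_pos (by positivity)]
      have : (0 : ℝ) ≤ n := Nat.cast_nonneg _
      linarith
    have h1 : ‖g (v - y / ((n : ℝ) + 1))‖ ≤ A * Real.exp (|b| * (|v| + |y|)) := by
      refine (g_le H _).trans (mul_le_mul_of_nonneg_left ?_ hA)
      apply Real.exp_le_exp.2
      exact mul_le_mul_of_nonneg_left hq (abs_nonneg _)
    have h2 : ‖g v‖ ≤ A * Real.exp (|b| * (|v| + |y|)) := by
      refine (g_le H _).trans (mul_le_mul_of_nonneg_left ?_ hA)
      apply Real.exp_le_exp.2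
      exact mul_le_mul_of_nonneg_left (by linarith [abs_nonneg y]) (abs_nonneg _)
    have h4 : ‖g (v - y / ((n : ℝ) + 1)) - g v‖ ≤ 2 * A * Real.exp (|b| * (|v| + |y|)) := by
      refine (norm_sub_le _ _).trans ?_
      linarith
    have h5 : |b| * |y| ≤ b ^ 2 + 1 / 2 * y ^ 2 := by
      rw [← sq_abs y, ← sq_abs b]
      nlinarith [sq_nonneg (|b| - |y| / 2), sq_nonneg (|y|), sq_nonneg (|b| - |y|)]
    calc ‖g (v - y / ((n : ℝ) + 1)) - g v‖ * Real.exp (-y ^ 2) ≤
        (2 * A * Real.exp (|b| * (|v| + |y|))) * Real.exp (-y ^ 2) :=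
          mul_le_mul_of_nonneg_right h4 (Real.exp_pos _).le
      _ = 2 * A * Real.exp (|b| * (|v| + |y|) + -y ^ 2) := by rw [mul_assoc, ← Real.exp_add]
      _ ≤ 2 * A * Real.exp ((|b| * |v| + b ^ 2) + -(1 / 2) * y ^ 2) := by
          apply mul_le_mul_of_nonneg_left _ (by positivity)
          apply Real.exp_le_exp.2
          nlinarith
      _ = _ := by rw [Real.exp_add, hK]; ring
  have hlim : Tendsto (fun n : ℕ => ∫ y : ℝ, ‖g (v - y / ((n : ℝ) + 1)) - g v‖ * Real.exp (-y ^ 2)) atTop (𝓝 0) := by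
    refine tail_lim (h := fun y => K * Real.exp (-(1 / 2) * y ^ 2))
      ((integrable_exp_neg_mul_sq (by norm_num)).const_mul _) (fun n y => by positivity) hdom ?_ ?_
    · intro n
      exact Measurable.aestronglyMeasurable (by fun_prop)
    · intro R
      rcases Nat.eq_zero_or_pos R with hR | hR
      · subst hR
        simp
      have hR0 : (0 : ℝ) < R := by exact_mod_cast hR
      have h1 := (hv R hR).const_mul (2 * (R : ℝ))
      rw [mul_zero] at h1
      refine squeeze_zero (fun n => ?_) (fun n => ?_) h1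
      · apply intervalIntegral.integral_nonneg (by linarith)
        intro y _
        positivity
      · have hN : (0 : ℝ) < (n : ℝ) + 1 := by positivity
        rw [← avg_int (fun y => ‖g y - g v‖) v hR0 hN]
        have hli : LocallyIntegrable (fun y : ℝ => ‖g (v - y / ((n : ℝ) + 1)) - g v‖) := by
          have h2 : LocallyIntegrable (fun y : ℝ => K * Real.exp (1 / 2 * y ^ 2)) := by
            apply Continuous.locallyIntegrable
            fun_prop
          refine h2.mono (Measurable.aestronglyMeasurable (by fun_prop)) (Eventually.of_forall fun y => ?_)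
          rw [norm_norm, Real.norm_eq_abs]
          refine le_trans ?_ (le_abs_self _)
          have h4 := hdom n y
          have h5 : ‖g (v - y / ((n : ℝ) + 1)) - g v‖ =
              (‖g (v - y / ((n : ℝ) + 1)) - g v‖ * Real.exp (-y ^ 2)) * Real.exp (y ^ 2) := by
            rw [mul_assoc, ← Real.exp_add, neg_add_cancel, Real.exp_zero, mul_one]
          rw [h5]
          calc _ ≤ (K * Real.exp (-(1 / 2) * y ^ 2)) * Real.exp (y ^ 2) :=
                mul_le_mul_of_nonneg_right h4 (Real.exp_pos _).le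
            _ = _ := by rw [mul_assoc, ← Real.exp_add]; ring_nf
        have hi1 : IntervalIntegrable (fun y : ℝ => ‖g (v - y / ((n : ℝ) + 1)) - g v‖) volume (-(R : ℝ)) R :=
          (hli.integrableOn_isCompact isCompact_uIcc).intervalIntegrable
        apply intervalIntegral.integral_mono_on (by linarith)
        · exact hi1.mul_continuousOn (Continuous.continuousOn (by fun_prop))
        · exact hi1
        · intro y _
          apply mul_le_of_le_one_right (norm_nonneg _)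
          rw [Real.exp_le_one_iff]
          nlinarith [sq_nonneg y]
  have hd : Tendsto (fun n : ℕ => ∫ y : ℝ, g (v - y / ((n : ℝ) + 1)) * ((Real.exp (-y ^ 2) : ℝ) : ℂ)) atTop
      (𝓝 (g v * ((Real.sqrt Real.pi : ℝ) : ℂ))) := by
    rw [tendsto_iff_norm_sub_tendsto_zero]
    refine squeeze_zero (fun n => norm_nonneg _) (fun n => ?_) hlim
    have hcI : Integrable (fun y : ℝ => g v * ((Real.exp (-y ^ 2) : ℝ) : ℂ)) := hgi.ofReal.const_mul _
    have hdi : Integrable (fun y : ℝ => (g (v - y / ((n : ℝ) + 1)) - g v) * ((Real.exp (-y ^ 2) : ℝ) : ℂ)) := by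
      refine Integrable.mono' ((integrable_exp_neg_mul_sq (b := 1 / 2) (by norm_num)).const_mul K)
        (Measurable.aestronglyMeasurable (by fun_prop)) (Eventually.of_forall fun y => ?_)
      rw [norm_mul, Complex.norm_real, Real.norm_eq_abs, abs_of_pos (Real.exp_pos _)]
      exact hdom n y
    have e1 : (∫ y : ℝ, g (v - y / ((n : ℝ) + 1)) * ((Real.exp (-y ^ 2) : ℝ) : ℂ)) - g v * ((Real.sqrt Real.pi : ℝ) : ℂ) =
        ∫ y : ℝ, (g (v - y / ((n : ℝ) + 1)) - g v) * ((Real.exp (-y ^ 2) : ℝ) : ℂ) := by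
      have e2 : ∫ y : ℝ, g v * ((Real.exp (-y ^ 2) : ℝ) : ℂ) = g v * ((Real.sqrt Real.pi : ℝ) : ℂ) := by
        rw [integral_const_mul, integral_complex_ofReal, h3]
      rw [← e2, sub_eq_iff_eq_add, ← integral_add hdi hcI]
      apply integral_congr_ae
      refine Eventually.of_forall fun y => ?_
      simp only
      ring
    rw [e1]
    refine (norm_integral_le_integral_norm _).trans (le_of_eq ?_)
    apply integral_congr_ae
    refine Eventually.of_forall fun y => ?_
    simp only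
    rw [norm_mul, Complex.norm_real, Real.norm_eq_abs, abs_of_pos (Real.exp_pos _)]
  have h2 := hd.const_mul (((1 / Real.sqrt Real.pi : ℝ) : ℂ))
  have h5 : Real.sqrt Real.pi ≠ 0 := (Real.sqrt_pos.2 Real.pi_pos).ne'
  have h6 : ((1 / Real.sqrt Real.pi : ℝ) : ℂ) * (g v * ((Real.sqrt Real.pi : ℝ) : ℂ)) = g v := by
    have h7 : ((Real.sqrt Real.pi : ℝ) : ℂ) ≠ 0 := by exact_mod_cast h5
    push_cast
    field_simp
  rw [h6] at h2
  exact h2

include H in
/-- from the line to the function -/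
theorem ms_main (hA : AH G σ < ⊤) : ∫⁻ v : ℝ, ‖g v * ((Real.exp (-σ * v) : ℝ) : ℂ)‖ₑ ^ 2 < ⊤ := by
  have hm := H.meas
  have hphi : ∀ n : ℕ, Measurable (fun v : ℝ => phi g (en n) v) := by
    intro n
    unfold phi
    refine (StronglyMeasurable.integral_prod_right
      (f := fun v u : ℝ => g u * ((Real.exp (-(v - u) ^ 2 / (4 * en n)) : ℝ) : ℂ)) ?_).measurable
    refine Measurable.stronglyMeasurable ?_
    have : Measurable (fun p : ℝ × ℝ => g p.2) := hm.comp measurable_snd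
    show Measurable (fun p : ℝ × ℝ => g p.2 * ((Real.exp (-(p.1 - p.2) ^ 2 / (4 * en n)) : ℝ) : ℂ))
    fun_prop
  have h1 : ∀ᵐ v : ℝ, Tendsto (fun n : ℕ => ‖((1 / (2 * Real.pi) * Real.sqrt (Real.pi / en n) : ℝ) : ℂ) * phi g (en n) v *
      ((Real.exp (-σ * v) : ℝ) : ℂ)‖ₑ ^ 2) atTop (𝓝 (‖g v * ((Real.exp (-σ * v) : ℝ) : ℂ)‖ₑ ^ 2)) := by
    filter_upwards [lp_ae H] with v hv
    have h2 := (phi_tendsto H hv).mul_const (((Real.exp (-σ * v) : ℝ) : ℂ))
    have h3 := (continuous_enorm.tendsto _).comp h2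
    exact ((ENNReal.continuous_pow 2).tendsto _).comp h3
  have h2 : ∫⁻ v : ℝ, ‖g v * ((Real.exp (-σ * v) : ℝ) : ℂ)‖ₑ ^ 2 ≤ liminf (fun n : ℕ =>
      ∫⁻ v : ℝ, ‖((1 / (2 * Real.pi) * Real.sqrt (Real.pi / en n) : ℝ) : ℂ) * phi g (en n) v *
        ((Real.exp (-σ * v) : ℝ) : ℂ)‖ₑ ^ 2) atTop := by
    calc ∫⁻ v : ℝ, ‖g v * ((Real.exp (-σ * v) : ℝ) : ℂ)‖ₑ ^ 2 = ∫⁻ v : ℝ, liminf (fun n : ℕ =>
          ‖((1 / (2 * Real.pi) * Real.sqrt (Real.pi / en n) : ℝ) : ℂ) * phi g (en n) v *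
            ((Real.exp (-σ * v) : ℝ) : ℂ)‖ₑ ^ 2) atTop := by
          apply lintegral_congr_ae
          filter_upwards [h1] with v hv
          exact hv.liminf_eq.symm
      _ ≤ _ := by
          apply lintegral_liminf_le
          intro n
          have := hphi n
          fun_prop
  have h3 : liminf (fun n : ℕ =>
      ∫⁻ v : ℝ, ‖((1 / (2 * Real.pi) * Real.sqrt (Real.pi / en n) : ℝ) : ℂ) * phi g (en n) v *
        ((Real.exp (-σ * v) : ℝ) : ℂ)‖ₑ ^ 2) atTop ≤ ENNReal.ofReal (Real.exp (2 * σ ^ 2)) * AH G σ := by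
    apply liminf_le_of_le (by isBoundedDefault)
    intro b hb
    obtain ⟨n, hn⟩ := hb.exists
    refine hn.trans ((phi_L2 H (en_pos n) hA).trans ?_)
    gcongr
    have : en n ≤ 1 := by
      unfold en
      rw [div_le_one (by positivity)]
      have : (0 : ℝ) ≤ n := Nat.cast_nonneg _
      nlinarith
    nlinarith [sq_nonneg σ]
  exact lt_of_le_of_lt (h2.trans h3) (ENNReal.mul_lt_top ENNReal.ofReal_lt_top hA)

theorem t_MS : Pool.Agent.J4H38.GS.S_MS := by
  intro g G σ c b A C m h0 hsc hbc hm hneg hbd hdiff hgr htr hL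
  have H : Dat g G σ c b A C m := ⟨h0, hsc, hbc, hm, hneg, hbd, hdiff, hgr, htr⟩
  have h1 := ms_main H (AH_lt H hL)
  refine lt_of_le_of_lt ?_ h1
  refine (setLIntegral_le_lintegral _ _).trans (lintegral_mono fun u => ?_)
  rw [enorm_mul, mul_pow]
  gcongr
  rw [← ofReal_norm, ← ENNReal.ofReal_pow (norm_nonneg _), Complex.norm_real, Real.norm_eq_abs,
    abs_of_pos (Real.exp_pos _), ← Real.exp_nat_mul]
  apply ENNReal.ofReal_le_ofReal
  apply Real.exp_le_exp.2
  push_cast
  linarith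

end

end Pool.Agent.J4H45.GS
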