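import Pool.Agent.J4H38.GS.Stm
import Pool.Agent.H153R4.Pl
import Pool.Agent.E8helper52.OR.Contour

/-!
Job MS of project GS, first part: Gaussian smoothing, shift of the line, Plancherel.
-/

set_option autoImplicit false

open Filter Topology MeasureTheory Set
open scoped ENNReal FourierTransform

namespace Pool.Agent.J4H45.GS

noncomputable section

/-- polynomial growth against a Gaussian factor -/
lemma gauss_beat (m : ℕ) {ε : ℝ} (hε : 0 < ε) (y : ℝ) : y ^ (2 * m) * Real.exp (-ε * y ^ 2) ≤ m.factorial / ε ^ m := by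
  have h := Real.pow_div_factorial_le_exp (ε * y ^ 2) (by positivity) m
  rw [div_le_iff₀ (by positivity)] at h
  rw [le_div_iff₀ (by positivity)]
  have h1 : Real.exp (-ε * y ^ 2) * Real.exp (ε * y ^ 2) = 1 := by
    rw [← Real.exp_add]
    simp
  calc y ^ (2 * m) * Real.exp (-ε * y ^ 2) * ε ^ m = (ε * y ^ 2) ^ m * Real.exp (-ε * y ^ 2) := by
        rw [mul_pow, pow_mul]; ring
    _ ≤ (Real.exp (ε * y ^ 2) * m.factorial) * Real.exp (-ε * y ^ 2) := by gcongr
    _ = m.factorial * (Real.exp (-ε * y ^ 2) * Real.exp (ε * y ^ 2)) := by ring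
    _ = m.factorial := by rw [h1, mul_one]

/-- the Gaussian factor -/
def gs (ε v : ℝ) (z : ℂ) : ℂ := Complex.exp (ε * z ^ 2 + z * v)

lemma gs_norm (ε v : ℝ) (z : ℂ) : ‖gs ε v z‖ = Real.exp (ε * (z.re ^ 2 - z.im ^ 2) + z.re * v) := by
  unfold gs
  rw [Complex.norm_exp]
  congr 1
  simp [pow_two]

/-- the hypotheses -/
structure Dat (g : ℝ → ℂ) (G : ℂ → ℂ) (σ c b A C : ℝ) (m : ℕ) : Prop where
  s0 : 0 < σ
  sc : σ < c
  bc : b < c
  meas : Measurable g
  neg : ∀ u : ℝ, u < 0 → g u = 0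
  bd : ∀ u : ℝ, 0 ≤ u → ‖g u‖ ≤ A * Real.exp (b * u)
  diff : DifferentiableOn ℂ G {s : ℂ | 0 < s.re}
  gr : ∀ s : ℂ, σ ≤ s.re → s.re ≤ c → ‖G s‖ ≤ C * (1 + |s.im|) ^ m
  tr : ∀ t : ℝ, ∫ u in Ioi (0 : ℝ), g u * Complex.exp (-(c + t * Complex.I) * u) = G (c + t * Complex.I)

variable {g : ℝ → ℂ} {G : ℂ → ℂ} {σ c b A C : ℝ} {m : ℕ} (H : Dat g G σ c b A C m)

include H in
lemma A_nonneg : 0 ≤ A := by
  have := H.bd 0 le_rfl
  rw [mul_zero, Real.exp_zero, mul_one] at this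
  exact (norm_nonneg _).trans this

include H in
lemma C_nonneg : 0 ≤ C := by
  have := H.gr (c : ℂ) (by simpa using H.sc.le) (by simp)
  simp only [Complex.ofReal_im, abs_zero, add_zero, one_pow, mul_one] at this
  exact (norm_nonneg _).trans this

include H in
lemma G_at {z : ℂ} (hz : 0 < z.re) : DifferentiableAt ℂ G z :=
  H.diff.differentiableAt ((isOpen_lt continuous_const Complex.continuous_re).mem_nhds hz)

include H in
/-- the bound for the product -/
lemma Ggs_bound {ε : ℝ} (hε : 0 < ε) (v : ℝ) : ∃ C' : ℝ, 0 ≤ C' ∧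
    ∀ s : ℂ, σ ≤ s.re → s.re ≤ c → 1 ≤ |s.im| → ‖G s * gs ε v s‖ ≤ C' / s.im ^ 2 := by
  have hC := C_nonneg H
  refine ⟨C * 2 ^ m * Real.exp (ε * c ^ 2 + c * |v|) * ((m + 1).factorial / ε ^ (m + 1)), by positivity,
    fun s h1 h2 h3 => ?_⟩
  have hy : 1 ≤ s.im ^ 2 := by rw [← sq_abs]; nlinarith
  have hy0 : 0 < s.im ^ 2 := by linarith
  have hs0 : 0 < s.re := lt_of_lt_of_le H.s0 h1
  rw [norm_mul, gs_norm, le_div_iff₀ hy0]
  have h4 := gauss_beat (m + 1) hε s.im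
  have h5 : Real.exp (ε * (s.re ^ 2 - s.im ^ 2) + s.re * v) ≤ Real.exp (ε * c ^ 2 + c * |v|) * Real.exp (-ε * s.im ^ 2) := by
    rw [← Real.exp_add]
    apply Real.exp_le_exp.2
    have h6 : s.re * v ≤ c * |v| :=
      (mul_le_mul_of_nonneg_left (le_abs_self v) hs0.le).trans (mul_le_mul_of_nonneg_right h2 (abs_nonneg v))
    have h7 : s.re ^ 2 ≤ c ^ 2 := pow_le_pow_left₀ hs0.le h2 2
    have h8 : ε * s.re ^ 2 ≤ ε * c ^ 2 := mul_le_mul_of_nonneg_left h7 hε.le
    linarith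
  have h9 : ‖G s‖ ≤ C * (2 ^ m * s.im ^ (2 * m)) := by
    refine (H.gr s h1 h2).trans (mul_le_mul_of_nonneg_left ?_ hC)
    calc (1 + |s.im|) ^ m ≤ (2 * s.im ^ 2) ^ m := by
          apply pow_le_pow_left₀ (by positivity)
          rw [← sq_abs]
          nlinarith
      _ = 2 ^ m * s.im ^ (2 * m) := by rw [mul_pow, pow_mul]
  calc ‖G s‖ * Real.exp (ε * (s.re ^ 2 - s.im ^ 2) + s.re * v) * s.im ^ 2 ≤
      (C * (2 ^ m * s.im ^ (2 * m))) * (Real.exp (ε * c ^ 2 + c * |v|) * Real.exp (-ε * s.im ^ 2)) * s.im ^ 2 := by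
        have h8 : 0 ≤ C * (2 ^ m * s.im ^ (2 * m)) := le_trans (norm_nonneg _) h9
        gcongr
    _ = C * 2 ^ m * Real.exp (ε * c ^ 2 + c * |v|) * (s.im ^ (2 * (m + 1)) * Real.exp (-ε * s.im ^ 2)) := by ring
    _ ≤ _ := by gcongr

include H in
/-- the line integrals of the product do not depend on the line -/
theorem shift {ε : ℝ} (hε : 0 < ε) (v : ℝ) :
    ∫ y : ℝ, G (σ + y * Complex.I) * gs ε v (σ + y * Complex.I) =
    ∫ y : ℝ, G (c + y * Complex.I) * gs ε v (c + y * Complex.I) := by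
  obtain ⟨C', hC', h⟩ := Ggs_bound H hε v
  refine Pool.Agent.E8helper52.OR.strip_shift (f := fun z => G z * gs ε v z) H.sc.le ?_ hC' (le_refl 1) ?_
  · intro z hz _
    have h1 := G_at H (lt_of_lt_of_le H.s0 hz)
    unfold gs
    fun_prop
  · intro z hz1 hz2 hz3
    exact h z hz1 hz2 hz3

/-- the weighted function -/
def fs (g : ℝ → ℂ) (c u : ℝ) : ℂ := g u * Complex.exp (-(c * u : ℝ))

include H in
lemma fs_meas : Measurable (fs g c) := by
  have := H.meas
  unfold fs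
  fun_prop

lemma fs_norm (u : ℝ) : ‖fs g c u‖ = ‖g u‖ * Real.exp (-(c * u)) := by
  unfold fs
  rw [norm_mul, ← Complex.ofReal_neg, ← Complex.ofReal_exp, Complex.norm_real, Real.norm_eq_abs,
    abs_of_pos (Real.exp_pos _)]

include H in
lemma fs_int : Integrable (fs g c) := by
  have hA := A_nonneg H
  have h1 : IntegrableOn (fs g c) (Ioi 0) := by
    have h2 : IntegrableOn (fun u : ℝ => A * Real.exp (-(c - b) * u)) (Ioi 0) :=
      (exp_neg_integrableOn_Ioi 0 (by linarith [H.bc] : 0 < c - b)).const_mul A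
    refine Integrable.mono' h2 (fs_meas H).aestronglyMeasurable ?_
    refine (ae_restrict_iff' measurableSet_Ioi).2 (Eventually.of_forall fun u hu => ?_)
    rw [fs_norm]
    calc ‖g u‖ * Real.exp (-(c * u)) ≤ (A * Real.exp (b * u)) * Real.exp (-(c * u)) :=
          mul_le_mul_of_nonneg_right (H.bd u (le_of_lt hu)) (Real.exp_pos _).le
      _ = A * Real.exp (-(c - b) * u) := by
          rw [mul_assoc, ← Real.exp_add]
          ring_nf
  rw [← integrable_indicator_iff measurableSet_Ioi] at h1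
  refine h1.congr ?_
  have h0 : ∀ᵐ u : ℝ, u ≠ 0 := by
    rw [ae_iff]
    simp
  filter_upwards [h0] with u hu
  rcases lt_or_gt_of_ne hu with h2 | h2
  · rw [indicator_of_notMem (by simpa using h2.le)]
    unfold fs
    rw [H.neg u h2]
    simp
  · rw [indicator_of_mem (by simpa using h2)]

include H in
lemma G_line (t : ℝ) : G (c + t * Complex.I) = ∫ u : ℝ, fs g c u * Complex.exp (-(t * u : ℝ) * Complex.I) := by
  rw [← H.tr t, ← integral_indicator measurableSet_Ioi]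
  apply integral_congr_ae
  have h0 : ∀ᵐ u : ℝ, u ≠ 0 := by
    rw [ae_iff]
    simp
  filter_upwards [h0] with u hu
  rcases lt_or_gt_of_ne hu with h1 | h1
  · rw [indicator_of_notMem (by simpa using h1.le)]
    unfold fs
    rw [H.neg u h1]
    simp
  · rw [indicator_of_mem (by simpa using h1)]
    unfold fs
    rw [mul_assoc, ← Complex.exp_add]
    congr 2
    push_cast
    ring

/-- the Gaussian integral along a vertical line -/
lemma gauss_line {ε : ℝ} (hε : 0 < ε) (c w : ℝ) :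
    ∫ t : ℝ, gs ε w (c + t * Complex.I) = ((Real.sqrt (Real.pi / ε) * Real.exp (-w ^ 2 / (4 * ε)) : ℝ) : ℂ) := by
  have e : ∀ t : ℝ, gs ε w (c + t * Complex.I) =
      Complex.exp (-(ε : ℂ) * (t : ℂ) ^ 2 + (2 * c * ε + w) * Complex.I * t + (ε * c ^ 2 + c * w)) := by
    intro t
    unfold gs
    congr 1
    linear_combination (ε * (t : ℂ) ^ 2) * Complex.I_sq
  simp_rw [e]
  rw [integral_cexp_quadratic (by simpa using hε)]
  have h1 : (Real.pi / -(-(ε : ℂ))) ^ (1 / 2 : ℂ) = ((Real.sqrt (Real.pi / ε) : ℝ) : ℂ) := by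
    rw [neg_neg, Real.sqrt_eq_rpow, ← Complex.ofReal_div]
    rw [Complex.ofReal_cpow (by positivity)]
    norm_num
  rw [h1]
  push_cast
  congr 2
  have hε0 : (ε : ℂ) ≠ 0 := by exact_mod_cast hε.ne'
  field_simp
  linear_combination ((2 * c * ε + w) ^ 2 : ℂ) * Complex.I_sq

/-- the smoothed function -/
def phi (g : ℝ → ℂ) (ε v : ℝ) : ℂ := ∫ u : ℝ, g u * ((Real.exp (-(v - u) ^ 2 / (4 * ε)) : ℝ) : ℂ)

lemma gauss_t_int {ε : ℝ} (hε : 0 < ε) (c : ℝ) : Integrable (fun t : ℝ => Real.exp (c - ε * t ^ 2)) := by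
  have h := (integrable_exp_neg_mul_sq hε).const_mul (Real.exp c)
  refine h.congr (Eventually.of_forall fun t => ?_)
  simp only
  rw [← Real.exp_add]
  ring_nf

include H in
theorem line_c {ε : ℝ} (hε : 0 < ε) (v : ℝ) :
    ∫ y : ℝ, G (c + y * Complex.I) * gs ε v (c + y * Complex.I) =
      ((Real.sqrt (Real.pi / ε) : ℝ) : ℂ) * phi g ε v := by
  have hi := fs_int H
  have e1 : ∀ y : ℝ, G (c + y * Complex.I) * gs ε v (c + y * Complex.I) =
      ∫ u : ℝ, fs g c u * Complex.exp (-(y * u : ℝ) * Complex.I) * gs ε v (c + y * Complex.I) := by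
    intro y
    rw [G_line H, integral_mul_const]
  simp_rw [e1]
  rw [integral_integral_swap]
  · have e2 : ∀ u : ℝ, ∫ y : ℝ, fs g c u * Complex.exp (-(y * u : ℝ) * Complex.I) * gs ε v (c + y * Complex.I) =
        ((Real.sqrt (Real.pi / ε) : ℝ) : ℂ) * (g u * ((Real.exp (-(v - u) ^ 2 / (4 * ε)) : ℝ) : ℂ)) := by
      intro u
      have e3 : ∀ y : ℝ, fs g c u * Complex.exp (-(y * u : ℝ) * Complex.I) * gs ε v (c + y * Complex.I) =
          g u * gs ε (v - u) (c + y * Complex.I) := by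
        intro y
        unfold fs gs
        rw [mul_assoc, mul_assoc, ← Complex.exp_add, ← Complex.exp_add]
        congr 2
        push_cast
        ring
      simp_rw [e3]
      rw [integral_const_mul, gauss_line hε]
      push_cast
      ring
    simp_rw [e2]
    rw [integral_const_mul]
    rfl
  · have h1 : Integrable (fun p : ℝ × ℝ => Real.exp (ε * c ^ 2 + c * v - ε * p.1 ^ 2) * ‖fs g c p.2‖) (volume.prod volume) :=
      (gauss_t_int hε _).mul_prod hi.norm
    refine Integrable.mono' h1 ?_ ?_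
    · refine Measurable.aestronglyMeasurable ?_
      have hm := fs_meas H
      unfold gs
      have hm2 : Measurable (fun p : ℝ × ℝ => fs g c p.2) := hm.comp measurable_snd
      show Measurable (fun p : ℝ × ℝ => fs g c p.2 * Complex.exp (-(p.1 * p.2 : ℝ) * Complex.I) *
        Complex.exp (ε * (c + p.1 * Complex.I) ^ 2 + (c + p.1 * Complex.I) * v))
      fun_prop
    · refine Eventually.of_forall fun p => ?_
      show ‖fs g c p.2 * Complex.exp (-(p.1 * p.2 : ℝ) * Complex.I) * gs ε v (c + p.1 * Complex.I)‖ ≤ _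
      rw [norm_mul, norm_mul, gs_norm]
      have e4 : ‖Complex.exp (-(p.1 * p.2 : ℝ) * Complex.I)‖ = 1 := by
        rw [← Complex.ofReal_neg, Complex.norm_exp_ofReal_mul_I]
      rw [e4, mul_one, mul_comm]
      apply le_of_eq
      congr 2
      simp
      ring

/-- the square integral on a line -/
def AH (G : ℂ → ℂ) (σ : ℝ) : ℝ≥0∞ := ∫⁻ ξ : ℝ, ‖G (σ + (2 * Real.pi * ξ : ℝ) * Complex.I)‖ₑ ^ 2

include H in
lemma line_cont : Continuous (fun y : ℝ => G (σ + y * Complex.I)) := by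
  refine Pool.Agent.E8helper52.OR.cont_line (fun z hz => G_at H ?_)
  rw [hz]
  exact H.s0

include H in
lemma AH_lt (h : ∫⁻ t : ℝ, ‖G (σ + t * Complex.I)‖ₑ ^ 2 < ⊤) : AH G σ < ⊤ := by
  have hc := line_cont H
  have hm : Measurable (fun t : ℝ => ‖G (σ + t * Complex.I)‖ₑ ^ 2) := hc.enorm.measurable.pow_const 2
  have h1 := lintegral_map (μ := (volume : Measure ℝ)) hm (measurable_const_mul (2 * Real.pi))
  rw [Real.map_volume_mul_left (by positivity), lintegral_smul_measure] at h1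
  unfold AH
  rw [← h1]
  exact ENNReal.mul_lt_top ENNReal.ofReal_lt_top h

include H in
lemma line_int {ε : ℝ} (hε : 0 < ε) (v : ℝ) :
    Integrable (fun y : ℝ => G (σ + y * Complex.I) * gs ε v (σ + y * Complex.I)) := by
  obtain ⟨C', hC', h⟩ := Ggs_bound H hε v
  have hc : Continuous (fun y : ℝ => G (σ + y * Complex.I) * gs ε v (σ + y * Complex.I)) := by
    refine (line_cont H).mul ?_
    unfold gs
    fun_prop
  obtain ⟨C'', -, h2⟩ := Pool.Agent.E8helper52.OR.global_bd hc hC' (le_refl 1) (fun y hy => by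
    have := h (σ + y * Complex.I) (by simp) (by simpa using H.sc.le) (by simpa using hy)
    simpa using this)
  exact Pool.Agent.E8helper52.OR.integrable_of_bd hc h2

include H in
theorem phi_L2 {ε : ℝ} (hε : 0 < ε) (hA : AH G σ < ⊤) :
    ∫⁻ v : ℝ, ‖((1 / (2 * Real.pi) * Real.sqrt (Real.pi / ε) : ℝ) : ℂ) * phi g ε v * ((Real.exp (-σ * v) : ℝ) : ℂ)‖ₑ ^ 2 ≤
      ENNReal.ofReal (Real.exp (2 * ε * σ ^ 2)) * AH G σ := by
  obtain ⟨q, hgd⟩ : ∃ q : ℝ → ℂ, q = fun ξ => G (σ + (2 * Real.pi * ξ : ℝ) * Complex.I) *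
    gs ε 0 (σ + (2 * Real.pi * ξ : ℝ) * Complex.I) := ⟨_, rfl⟩
  have hpi : (2 * Real.pi : ℝ) ≠ 0 := by positivity
  have hgi : Integrable q := by
    have h1 := line_int H hε 0
    have h2 := h1.comp_mul_left' hpi
    rw [hgd]
    exact h2
  have hgn : ∀ ξ, ‖q ξ‖ₑ ^ 2 ≤ ENNReal.ofReal (Real.exp (2 * ε * σ ^ 2)) * ‖G (σ + (2 * Real.pi * ξ : ℝ) * Complex.I)‖ₑ ^ 2 := by
    intro ξ
    rw [hgd]
    simp only
    rw [enorm_mul, mul_pow, mul_comm]
    gcongr
    rw [← ofReal_norm, ← ENNReal.ofReal_pow (norm_nonneg _)]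
    apply ENNReal.ofReal_le_ofReal
    rw [gs_norm, ← Real.exp_nat_mul]
    apply Real.exp_le_exp.2
    simp
    nlinarith [sq_nonneg (2 * Real.pi * ξ)]
  have hgint : ∫⁻ ξ, ‖q ξ‖ₑ ^ 2 ≤ ENNReal.ofReal (Real.exp (2 * ε * σ ^ 2)) * AH G σ := by
    unfold AH
    rw [← lintegral_const_mul']
    · exact lintegral_mono hgn
    · exact ENNReal.ofReal_ne_top
  have hg2 : MemLp q 2 := by
    refine ⟨hgi.aestronglyMeasurable, ?_⟩
    rw [eLpNorm_lt_top_iff_lintegral_rpow_enorm_lt_top (by norm_num) (by norm_num)]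
    have h3 : ∫⁻ ξ, ‖q ξ‖ₑ ^ 2 < ⊤ := lt_of_le_of_lt hgint (ENNReal.mul_lt_top ENNReal.ofReal_lt_top hA)
    simpa using h3
  have hF : ∀ v : ℝ, 𝓕 q (-v) =
      ((1 / (2 * Real.pi) * Real.sqrt (Real.pi / ε) : ℝ) : ℂ) * phi g ε v * ((Real.exp (-σ * v) : ℝ) : ℂ) := by
    intro v
    have h1 := shift H hε v
    rw [line_c H hε v] at h1
    have h2 : ∫ ξ : ℝ, G (σ + ((2 * Real.pi * ξ : ℝ) : ℂ) * Complex.I) * gs ε v (σ + ((2 * Real.pi * ξ : ℝ) : ℂ) * Complex.I) =
        |(2 * Real.pi)⁻¹| • ∫ y : ℝ, G (σ + y * Complex.I) * gs ε v (σ + y * Complex.I) :=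
      Measure.integral_comp_mul_left (fun y : ℝ => G (σ + y * Complex.I) * gs ε v (σ + y * Complex.I)) (2 * Real.pi)
    rw [h1] at h2
    have h3 : 𝓕 q (-v) = Complex.exp (-σ * v) * ∫ ξ : ℝ, G (σ + ((2 * Real.pi * ξ : ℝ) : ℂ) * Complex.I) *
        gs ε v (σ + ((2 * Real.pi * ξ : ℝ) : ℂ) * Complex.I) := by
      rw [Real.fourier_eq', ← integral_const_mul]
      apply integral_congr_ae
      refine Eventually.of_forall fun ξ => ?_
      simp only
      rw [hgd]
      simp only [smul_eq_mul, RCLike.inner_apply, conj_trivial]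
      unfold gs
      rw [mul_left_comm, mul_left_comm (Complex.exp (-(σ : ℂ) * v)), ← Complex.exp_add, ← Complex.exp_add]
      congr 2
      push_cast
      ring
    rw [h3, h2, abs_of_pos (by positivity), Complex.real_smul]
    push_cast
    ring
  have h4 : ∫⁻ v : ℝ, ‖((1 / (2 * Real.pi) * Real.sqrt (Real.pi / ε) : ℝ) : ℂ) * phi g ε v * ((Real.exp (-σ * v) : ℝ) : ℂ)‖ₑ ^ 2 =
      ∫⁻ v : ℝ, ‖𝓕 q v‖ₑ ^ 2 := by
    rw [← lintegral_neg_eq_self (f := fun v => ‖𝓕 q v‖ₑ ^ 2)]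
    apply lintegral_congr
    intro v
    rw [hF v]
  rw [h4, Pool.Agent.H153R4.plancherel q hgi hg2]
  exact hgint

end

end Pool.Agent.J4H45.GS
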